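import Mathlib
import Pool.Agent.H.MP_b041da_pr.A
open Finset Matrix
namespace Pool.Agent.H.MP_bada7b_pr
open Pool.Agent.H.MP_b041da_pr

open scoped Matrix.Norms.Operator in
lemma heat {n : ℕ} (P : Matrix (Fin n) (Fin n) ℝ) (T : ℝ) (x y : Fin n) :
    NormedSpace.exp (-T • (1 - P)) x y = Po T fun k => (P ^ k) x y := by
  have e : -T • (1 - P) = diagonal (fun _ => -T) + T • P := by
    rw [smul_sub, neg_smul T P, sub_neg_eq_add, smul_one_eq_diagonal]
  have hc : Commute (diagonal fun _ : Fin n => -T) (T • P) := by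
    rw [← smul_one_eq_diagonal]
    exact ((Commute.one_left P).smul_left _).smul_right _
  rw [e, Matrix.exp_add_of_commute _ _ hc, Matrix.exp_diagonal, diagonal_mul, Pi.coe_exp,
    ← Real.exp_eq_exp_ℝ, Po]
  congr 1
  have h := NormedSpace.exp_series_hasSum_exp' (𝕂 := ℝ) (T • P)
  have h2 := (Pi.hasSum.1 (Pi.hasSum.1 h x) y).tsum_eq
  refine h2.symm.trans ?_
  congr 1; funext k
  simp [smul_pow, div_eq_inv_mul, mul_assoc]

lemma pw {n : ℕ} {P : Matrix (Fin n) (Fin n) ℝ} (h0 : ∀ x y, 0 ≤ P x y) (h1 : ∀ x, ∑ y, P x y = 1)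
    (v : Fin n → ℝ) {r c : ℝ} (hr : 0 ≤ r) (hc : 0 ≤ c)
    (hv : ∀ x, ∑ y, P x y * v y ≤ r * v x + (1 - r) * c) (k : ℕ) :
    (∀ x y, 0 ≤ (P ^ k) x y) ∧ (∀ x, ∑ y, (P ^ k) x y = 1) ∧
      ∀ x, ∑ y, (P ^ k) x y * v y ≤ r ^ k * v x + c := by
  induction k with
  | zero =>
    refine ⟨fun x y => by rw [pow_zero, one_apply]; split_ifs <;> norm_num, fun x => by
      simp [one_apply], fun x => by simpa [one_apply] using hc⟩
  | succ k ih =>
    obtain ⟨a, b, d⟩ := ih
    refine ⟨fun x y => ?_, fun x => ?_, fun x => ?_⟩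
    · rw [pow_succ, mul_apply]; exact sum_nonneg fun z _ => mul_nonneg (a _ _) (h0 _ _)
    · simp only [pow_succ, mul_apply]
      rw [sum_comm]; simp only [← mul_sum, h1, mul_one, b]
    · simp only [pow_succ, mul_apply, sum_mul]
      rw [sum_comm]
      calc _ = ∑ z, (P ^ k) x z * ∑ y, P z y * v y := by simp only [mul_sum, mul_assoc]
        _ ≤ ∑ z, (P ^ k) x z * (r * v z + (1 - r) * c) :=
          sum_le_sum fun z _ => mul_le_mul_of_nonneg_left (hv z) (a _ _)
        _ = r * ∑ z, (P ^ k) x z * v z + (1 - r) * c := by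
          simp only [mul_add, sum_add_distrib, ← sum_mul, b, mul_sum, one_mul]
          congr 1; exact sum_congr rfl fun z _ => by ring
        _ ≤ _ := by nlinarith [mul_le_mul_of_nonneg_left (d x) hr]

lemma Po_pow (T r : ℝ) : Po T (fun k => r ^ k) = Real.exp (-((1 - r) * T)) := by
  have : (fun k : ℕ => T ^ k / k.factorial * r ^ k) = fun k => (T * r) ^ k / k.factorial :=
    funext fun k => by rw [mul_pow]; ring
  rw [Po, this, (hexp _).tsum_eq, ← Real.exp_add]; congr 1; ring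

noncomputable def Q (u : ℝ) : Matrix (Fin 3) (Fin 3) ℝ := !![1/2, 1/2, 0; 1/2, 0, 1/2; 0, u, 1 - u]

lemma heatQ {u T : ℝ} (hu : 0 ≤ u) (hu1 : u ≤ 1) (hT : 0 ≤ T) (x : Fin 3) :
    (∀ y, 0 ≤ NormedSpace.exp (-T • (1 - Q u)) x y ∧ NormedSpace.exp (-T • (1 - Q u)) x y ≤ 1) ∧
    NormedSpace.exp (-T • (1 - Q u)) x 0 + NormedSpace.exp (-T • (1 - Q u)) x 1 ≤
      3 / 2 * Real.exp (-(T / 6)) + 6 * u := by
  have h := pw (P := Q u) (fun x y => by fin_cases x <;> fin_cases y <;> simp [Q] <;> linarith)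
    (fun x => by fin_cases x <;> simp [Q, Fin.sum_univ_three] <;> norm_num) ![3, 2, 0]
    (r := 5/6) (c := 12 * u) (by norm_num) (by linarith)
    (fun x => by fin_cases x <;> simp [Q, Fin.sum_univ_three] <;> linarith)
  have b : ∀ y k, |(Q u ^ k) x y| ≤ 1 := fun y k => by
    rw [abs_of_nonneg ((h k).1 x y), ← (h k).2.1 x]
    exact single_le_sum (f := fun y => (Q u ^ k) x y) (fun _ _ => (h k).1 _ _) (mem_univ y)
  simp only [heat]
  refine ⟨fun y => ⟨?_, ?_⟩, ?_⟩
  · have := Po_mono hT (f := fun _ => 0) (C := 0) (by simp) (b y) (fun k => (h k).1 x y)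
    rwa [Po_const] at this
  · have := Po_mono hT (b y) (h := fun _ => 1) (D := 1) (by simp)
      (fun k => (le_abs_self _).trans (b y k))
    rwa [Po_const] at this
  · have h1 := Po_lin T 1 1 (b 0) (b 1)
    have p1 : ∀ k : ℕ, |(5/6:ℝ) ^ k| ≤ 1 := fun k => by
      rw [abs_of_nonneg (by positivity)]; exact pow_le_one₀ (by norm_num) (by norm_num)
    have h2 := Po_lin T (3/2) (6 * u) p1 (h := fun _ => 1) (D := 1) (by simp)
    have h3 := Po_mono hT (f := fun k => 1 * (Q u ^ k) x 0 + 1 * (Q u ^ k) x 1) (C := 2)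
      (h := fun k => 3/2 * (5/6:ℝ) ^ k + 6 * u * 1) (D := 8)
      (fun k => by have := b 0 k; have := b 1 k; rw [abs_le] at *; constructor <;> linarith)
      (fun k => by have := p1 k; rw [abs_le] at *; constructor <;> linarith)
      (fun k => by
        have a := (h k).2.2 x
        have a0 := (h k).1 x 0
        have p : (0:ℝ) ≤ (5/6) ^ k := by positivity
        have q : (![3, 2, 0] : Fin 3 → ℝ) x ≤ 3 := by fin_cases x <;> norm_num
        have := mul_le_mul_of_nonneg_left q p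
        simp [Fin.sum_univ_three] at a
        linarith)
    rw [h1, h2, Po_const, Po_pow, show (1 - 5/6 : ℝ) * T = T / 6 by ring] at h3
    linarith

lemma ent1 {m p : ℝ} (h0 : 0 ≤ m) (h1 : m ≤ 1) (hp : 0 < p) :
    m * Real.log (m / p) ≤ m * -Real.log p := by
  rcases h0.eq_or_lt with rfl | h
  · simp
  · rw [Real.log_div h.ne' hp.ne']
    have := Real.log_nonpos h0 h1
    nlinarith

theorem main (C : ℝ) : ∃ (P : Matrix (Fin 3) (Fin 3) ℝ) (π : Fin 3 → ℝ),
    P.IsIrreducible ∧ (∀ x, ∑ y, P x y = 1) ∧ (∀ x, 0 < π x) ∧ ∑ x, π x = 1 ∧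
    (∀ x y, π x * P x y = π y * P y x) ∧ ∃ T : ℝ, 0 < T ∧
    (∀ x, ∑ y, NormedSpace.exp (-T • (1 - P)) x y *
      Real.log (NormedSpace.exp (-T • (1 - P)) x y / π y) ≤ 1 / 2) ∧
    ∃ f : Fin 3 → ℝ,
      0 < ∑ x, π x * (Real.exp (f x) * f x) -
        (∑ x, π x * Real.exp (f x)) * Real.log (∑ x, π x * Real.exp (f x)) ∧
      C * T * ∑ x, π x * (((1 - P) *ᵥ fun y => Real.exp (f y)) x * f x) <
        ∑ x, π x * (Real.exp (f x) * f x) -
        (∑ x, π x * Real.exp (f x)) * Real.log (∑ x, π x * Real.exp (f x)) := by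
  obtain ⟨s, hs, hsC⟩ : ∃ s : ℝ, 100 ≤ s ∧ 100 * |C| + 100 ≤ s :=
    ⟨100 * |C| + 100, by linarith [abs_nonneg C], le_rfl⟩
  obtain ⟨K, hK⟩ : ∃ K, K = Real.exp s := ⟨_, rfl⟩
  have K1 : s + 1 ≤ K := hK ▸ Real.add_one_le_exp s
  have K3 : s ^ 3 / 6 ≤ K := by
    have := Real.pow_div_factorial_le_exp s (by linarith) 3
    norm_num [Nat.factorial] at this
    rwa [hK]
  have Kp : 0 < K := by linarith
  obtain ⟨δ, hδ⟩ : ∃ δ, δ = Real.exp (-K) := ⟨_, rfl⟩
  have dp : 0 < δ := hδ ▸ Real.exp_pos _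
  have d1 : δ * Real.exp K = 1 := by rw [hδ, ← Real.exp_add]; simp
  have d2 : 48 * K * δ ≤ 1 := by
    have := Real.pow_div_factorial_le_exp K Kp.le 2
    norm_num [Nat.factorial] at this
    nlinarith [mul_le_mul_of_nonneg_left (show 48 * K ≤ Real.exp K by nlinarith) dp.le]
  have d3 : δ ≤ 1 / 100 := by nlinarith
  obtain ⟨u, hu⟩ : ∃ u, u = δ / (2 * (1 - 2 * δ)) := ⟨_, rfl⟩
  have u1 : (1 - 2 * δ) * u = δ / 2 := by
    have : 1 - 2 * δ ≠ 0 := by linarith
    rw [hu]; field_simp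
  have up : 0 < u := by rw [hu]; exact div_pos dp (by linarith)
  have u2 : u ≤ δ := by nlinarith
  have q0 : ∀ x y, 0 ≤ Q u x y := fun x y => by
    fin_cases x <;> fin_cases y <;> simp [Q] <;> linarith
  refine ⟨Q u, ![δ, δ, 1 - 2 * δ], ?_, fun x => ?_, fun x => ?_, ?_, fun x y => ?_,
    6 * (s + 3), by linarith, fun x => ?_, ![K, K - s, 0], ?_⟩
  · rw [isIrreducible_iff_exists_pow_pos q0]
    intro i j
    refine ⟨2, by norm_num, ?_⟩
    have : 0 < 1 - u := by linarith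
    fin_cases i <;> fin_cases j <;> simp [Q, pow_two, mul_apply, Fin.sum_univ_three] <;> nlinarith
  · fin_cases x <;> simp [Q, Fin.sum_univ_three] <;> norm_num
  · fin_cases x <;> simp <;> linarith
  · simp [Fin.sum_univ_three]; ring
  · fin_cases x <;> fin_cases y <;> simp [Q] <;> linarith
  · obtain ⟨h1, h2⟩ := heatQ up.le (by linarith) (show 0 ≤ 6 * (s + 3) by linarith) x
    generalize NormedSpace.exp (-(6 * (s + 3)) • (1 - Q u)) x = m at h1 h2
    have a0 := ent1 (h1 0).1 (h1 0).2 dp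
    have a1 := ent1 (h1 1).1 (h1 1).2 dp
    have a2 := ent1 (h1 2).1 (h1 2).2 (show 0 < 1 - 2 * δ by linarith)
    have l1 : Real.log δ = -K := by rw [hδ, Real.log_exp]
    have l2 : -Real.log (1 - 2 * δ) ≤ 1 / 4 := by
      have := Real.one_sub_inv_le_log_of_pos (show 0 < 1 - 2 * δ by linarith)
      have : (1 - 2 * δ)⁻¹ ≤ 5 / 4 := by
        rw [inv_le_comm₀ (by linarith) (by norm_num)]; linarith
      linarith
    have l3 : K * Real.exp (-(6 * (s + 3) / 6)) ≤ 1 / 12 := by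
      rw [hK, ← Real.exp_add, show s + -(6 * (s + 3) / 6) = -3 by ring, Real.exp_neg,
        inv_le_comm₀ (Real.exp_pos _) (by norm_num)]
      have := Real.sum_le_exp_of_nonneg (x := 3) (by norm_num) 4
      norm_num [sum_range_succ, Nat.factorial] at this ⊢
      linarith
    rw [l1] at a0 a1
    simp only [Fin.sum_univ_three, cons_val_zero, cons_val_one, Matrix.cons_val]
    have := mul_le_mul_of_nonneg_left h2 Kp.le
    have := mul_le_mul (h1 2).2 l2
      (neg_nonneg.2 (Real.log_nonpos (by linarith) (by linarith))) zero_le_one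
    nlinarith
  · have e1 : δ * Real.exp (K - s) = 1 / K := by
      rw [Real.exp_sub, ← hK, ← mul_div_assoc, d1]
    have iK : 1 / K * K = 1 := by field_simp
    have iK2 : 0 < 1 / K := by positivity
    have iK3 : 1 / K ≤ 1 := by nlinarith
    have m1 : ∑ x, (![δ, δ, 1 - 2 * δ] : Fin 3 → ℝ) x * Real.exp ((![K, K - s, 0] : Fin 3 → ℝ) x) =
        2 + 1 / K - 2 * δ := by
      simp only [Fin.sum_univ_three, cons_val_zero, cons_val_one, Matrix.cons_val, Real.exp_zero]
      linarith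
    have m2 : ∑ x, (![δ, δ, 1 - 2 * δ] : Fin 3 → ℝ) x *
        (Real.exp ((![K, K - s, 0] : Fin 3 → ℝ) x) * (![K, K - s, 0] : Fin 3 → ℝ) x) =
        K + 1 / K * (K - s) := by
      simp only [Fin.sum_univ_three, cons_val_zero, cons_val_one, Matrix.cons_val, Real.exp_zero,
        ← mul_assoc, d1, e1]
      ring
    have m3 : ∑ x, (![δ, δ, 1 - 2 * δ] : Fin 3 → ℝ) x *
        (((1 - Q u) *ᵥ fun y => Real.exp ((![K, K - s, 0] : Fin 3 → ℝ) y)) x *
          (![K, K - s, 0] : Fin 3 → ℝ) x) =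
        (1 - 1 / K) * s / 2 + (1 / K - δ) * (K - s) / 2 := by
      simp [Fin.sum_univ_three, mulVec, dotProduct, Q, one_apply]
      rw [← one_div K, ← e1]
      linear_combination (s / 2) * d1
    rw [m1, m2, m3]
    have l : Real.log (2 + 1 / K - 2 * δ) ≤ 2 := by
      linarith [Real.log_le_sub_one_of_pos (show 0 < 2 + 1 / K - 2 * δ by linarith)]
    have l2 : (2 + 1 / K - 2 * δ) * Real.log (2 + 1 / K - 2 * δ) ≤ 6 := by nlinarith
    have l3 : 0 ≤ 1 / K * (K - s) := mul_nonneg iK2.le (by linarith)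
    have l4 : 0 ≤ δ * (K - s) := mul_nonneg dp.le (by linarith)
    have l5 : 0 ≤ 1 / K * s := mul_nonneg iK2.le (by linarith)
    have l6 : δ ≤ 1 / K := by nlinarith
    refine ⟨by linarith, ?_⟩
    have E0 : 0 ≤ (1 - 1 / K) * s / 2 + (1 / K - δ) * (K - s) / 2 := by
      have := mul_nonneg (sub_nonneg.2 iK3) (show 0 ≤ s by linarith)
      have := mul_nonneg (sub_nonneg.2 l6) (show 0 ≤ K - s by linarith)
      linarith
    have E1 : (1 - 1 / K) * s / 2 + (1 / K - δ) * (K - s) / 2 ≤ s := by nlinarith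
    generalize (1 - 1 / K) * s / 2 + (1 / K - δ) * (K - s) / 2 = E at E0 E1
    have c1 : C * (6 * (s + 3)) * E ≤ |C| * (12 * s) * s := by
      have := abs_nonneg C
      calc _ ≤ |C| * (6 * (s + 3)) * E := by gcongr; exact le_abs_self C
        _ ≤ _ := mul_le_mul (mul_le_mul_of_nonneg_left (by linarith) this) E1 E0
          (mul_nonneg this (by linarith))
    have c2 : (100 * |C| + 100) * s ^ 2 ≤ s * s ^ 2 := by gcongr
    nlinarith [abs_nonneg C]

end Pool.Agent.H.MP_bada7b_pr
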